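import Pool.Agent.Helper64_Chan.Main

/-!
# Minimum-width channel routing in the two-layer unrestricted model is NP-hard

The decision problem: given a channel routing problem `C` and `w`, is `w_min(C) ≤ w`, is NP-hard
under polynomial-time many-one reductions, also when restricted to dense channel routing problems.

Proof idea. Satisfiability is reduced to a problem about linear orders: find a linear order of
elements `0, …, N - 1` satisfying constraints of the forms: `a` is above `b`; `a` is above `b` or
above `c`; `a` is below `b` or below `c` (file `SatOrder`). The channel has width `W = N + 2`;
`W` nets run through the whole channel, and long blocks of columns having their own two-terminal
nets force each of the `W` long nets to keep its track on one layer (files `Region` to `Glob`).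
The columns between two blocks transmit the order of the tracks and can be routed only if the
order satisfies a constraint (files `Straight`, `Crossing`, `RegionMain`, `Chain`, `Order`).
Conversely, an order satisfying all constraints gives an explicit layout (`Shapes`, `ToLayout`).
-/

namespace Pool.Agent.Results.MP_bac54a_lc.MinWidthNPHard

open Pool.Agent.Helper64_Chan

/-- The minimum-width channel routing problem in the two-layer unrestricted model is NP-hard, and
it remains NP-hard for dense channel routing problems. -/
theorem result : NPHard channelProblem ∧ NPHard denseChannelProblem :=
  channel_nphard

end Pool.Agent.Results.MP_bac54a_lc.MinWidthNPHard
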